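import Mathlib
import Pool.Agent.Lib.MP_e52bc6_co.Struct



namespace Pool.Agent.Results.MP_e52bc6_co.Exact

open Pool.Agent.Lib.MP_e52bc6_co

/-- The total domination number: least size of a set `S` such that every vertex has a neighbour
in `S`. -/
noncomputable def totalDomNum {n : ℕ} (G : SimpleGraph (Fin n)) : ℕ :=
  sInf {k | ∃ S : Finset (Fin n), S.card = k ∧ ∀ v, ∃ u ∈ S, G.Adj v u}

/-- Connected cubic graphs with no induced claw and no induced diamond. -/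
def InClass {n : ℕ} (G : SimpleGraph (Fin n)) : Prop :=
  G.Connected ∧ (∀ v, (G.neighborSet v).ncard = 3) ∧
    IsEmpty (completeBipartiteGraph (Fin 1) (Fin 3) ↪g G) ∧
    IsEmpty ((⊤ : SimpleGraph (Fin 4)).deleteEdges {s(0, 1)} ↪g G)

theorem result (n : ℕ) (hn : 4 < n) :
    ((∃ G : SimpleGraph (Fin n), InClass G) ↔ 6 ∣ n) ∧
    (6 ∣ n → IsGreatest {k | ∃ G : SimpleGraph (Fin n), InClass G ∧ totalDomNum G = k}
      (n / 3 + 2 * ((n + 6) / 36))) := by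
  have hne : Nonempty (Fin n) := ⟨⟨0, by omega⟩⟩
  have up : ∀ G : SimpleGraph (Fin n), InClass G → 6 ∣ n ∧
      ∃ D : Finset (Fin n), D.card ≤ n / 3 + 2 * ((n + 6) / 36) ∧ ∀ v, ∃ u ∈ D, G.Adj v u := by
    rintro G ⟨h1, h2, h3, h4⟩
    obtain ⟨T, _, _, X, rfl⟩ := exists_str h1 h2 h3 h4 (by simpa using hn)
    have hc := X.card_eq
    obtain ⟨m, hm⟩ := X.even_card
    rw [Fintype.card_fin] at hc
    obtain ⟨D, hD, hD'⟩ := X.upper (X.connected_iff.mp h1)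
    exact ⟨by omega, D, by omega, hD'⟩
  have up' : ∀ G : SimpleGraph (Fin n), InClass G →
      totalDomNum G ≤ n / 3 + 2 * ((n + 6) / 36) := by
    intro G hG
    obtain ⟨-, D, hD, hD'⟩ := up G hG
    exact (Nat.sInf_le (s := {k | ∃ S : Finset (Fin n), S.card = k ∧ ∀ v, ∃ u ∈ S, G.Adj v u})
      ⟨D, rfl, hD'⟩).trans hD
  have low : 6 ∣ n → ∃ G : SimpleGraph (Fin n), InClass G ∧
      totalDomNum G = n / 3 + 2 * ((n + 6) / 36) := by
    intro h6
    obtain ⟨T, _, X, hc, hX⟩ := exists_extremal n (by omega) h6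
    have hG : InClass X.graph :=
      ⟨X.connected_iff.mpr hc, X.ncard_neighborSet, X.clawFree, X.diamondFree⟩
    refine ⟨X.graph, hG, le_antisymm (up' _ hG) ?_⟩
    obtain ⟨-, D, -, hD'⟩ := up _ hG
    have hmem := Nat.sInf_mem (s := {k | ∃ S : Finset (Fin n), S.card = k ∧
      ∀ v, ∃ u ∈ S, X.graph.Adj v u}) ⟨_, D, rfl, hD'⟩
    obtain ⟨S, hS, hS'⟩ := hmem
    unfold totalDomNum
    rw [← hS]
    exact hX S hS'
  refine ⟨⟨fun ⟨G, hG⟩ => (up G hG).1, fun h6 => (low h6).imp fun G h => h.1⟩, fun h6 => ⟨low h6, ?_⟩⟩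
  rintro k ⟨G, hG, rfl⟩
  exact up' G hG

end Pool.Agent.Results.MP_e52bc6_co.Exact
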