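import Mathlib
import Pool.Agent.Lib.MP_e52bc6_co.FX.Fwd

namespace Pool.Agent.Results.MP_e52bc6_co.Extremal

open Pool.Agent.Lib.MP_e52bc6_co

/-- The total domination number: least size of a set `S` such that every vertex has a neighbour
in `S`. -/
noncomputable def totalDomNum {n : ℕ} (G : SimpleGraph (Fin n)) : ℕ :=
  sInf {k | ∃ S : Finset (Fin n), S.card = k ∧ ∀ v, ∃ u ∈ S, G.Adj v u}

/-- Connected cubic graphs with no induced claw and no induced diamond. -/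
def InClass {n : ℕ} (G : SimpleGraph (Fin n)) : Prop :=
  G.Connected ∧ (∀ v, (G.neighborSet v).ncard = 3) ∧
    IsEmpty (completeBipartiteGraph (Fin 1) (Fin 3) ↪g G) ∧
    IsEmpty ((⊤ : SimpleGraph (Fin 4)).deleteEdges {s(0, 1)} ↪g G)

theorem result (n : ℕ) (hn : 4 < n) (G : SimpleGraph (Fin n)) (hG : InClass G) :
    18 * totalDomNum G = 7 * n + 6 ↔
      ∃ (N : Type) (R : SimpleGraph N) (π : Fin n → N) (c : N → Bool),
        R.IsTree ∧ (∀ x y, R.Adj x y → c x ≠ c y) ∧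
        (∀ x, ((R.neighborSet x).ncard = 3 ∧ (π ⁻¹' {x}).ncard = 3) ∨
          ((R.neighborSet x).ncard = 1 ∧ (π ⁻¹' {x}).ncard = 9 ∧ c x = true)) ∧
        (∀ u v, G.Adj u v → π u = π v ∨ R.Adj (π u) (π v)) ∧
        ∀ x y, R.Adj x y → ∃! p : Fin n × Fin n, G.Adj p.1 p.2 ∧ π p.1 = x ∧ π p.2 = y := by
  have hne : Nonempty (Fin n) := ⟨⟨0, by omega⟩⟩
  obtain ⟨h1, h2, h3, h4⟩ := hG
  obtain ⟨T, _, _, X, rfl⟩ := exists_str h1 h2 h3 h4 (by simpa using hn)
  have hc := X.card_eq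
  rw [Fintype.card_fin] at hc
  have hconn := X.connected_iff.mp h1
  have up : ∀ D : Finset (Fin n), (∀ v, ∃ u ∈ D, X.graph.Adj v u) →
      totalDomNum X.graph ≤ D.card := fun D hD => Nat.sInf_le ⟨D, rfl, hD⟩
  obtain ⟨D0, hD0, hD0'⟩ := X.upper hconn
  obtain ⟨S, hS, hS'⟩ : ∃ S : Finset (Fin n), S.card = totalDomNum X.graph ∧
      ∀ v, ∃ u ∈ S, X.graph.Adj v u :=
    Nat.sInf_mem (s := {k | ∃ S : Finset (Fin n), S.card = k ∧
      ∀ v, ∃ u ∈ S, X.graph.Adj v u}) ⟨_, D0, rfl, hD0'⟩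
  constructor
  · intro h
    obtain ⟨k, P, hP, hk, htb, hlow⟩ := X.key hconn
    obtain ⟨D, hD, hD'⟩ := X.dom_of_mt hP
    have a1 := up D hD'
    have a2 := hlow S hS'
    exact X.over_of_tb hconn (htb.resolve_left (by omega)) (by omega)
  · rintro ⟨N, R, π, c, h⟩
    obtain ⟨s, hs, htb⟩ := X.tb_of_over (R := R) (π := π) (c := c) h
    have a1 := up D0 hD0'
    have a2 := htb.lower S hS'
    omega

end Pool.Agent.Results.MP_e52bc6_co.Extremal
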