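import Mathlib
import Pool.Agent.Lib.MP_e52bc6_co.FX.Sub

namespace Pool.Agent.Results.MP_e52bc6_co.Formula

open Pool.Agent.Lib.MP_e52bc6_co

/-- The total domination number: least size of a set `S` such that every vertex has a neighbour
in `S`. -/
noncomputable def totalDomNum {n : ℕ} (G : SimpleGraph (Fin n)) : ℕ :=
  sInf {k | ∃ S : Finset (Fin n), S.card = k ∧ ∀ v, ∃ u ∈ S, G.Adj v u}

/-- Connected cubic graphs with no induced claw and no induced diamond. -/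
def InClass {n : ℕ} (G : SimpleGraph (Fin n)) : Prop :=
  G.Connected ∧ (∀ v, (G.neighborSet v).ncard = 3) ∧
    IsEmpty (completeBipartiteGraph (Fin 1) (Fin 3) ↪g G) ∧
    IsEmpty ((⊤ : SimpleGraph (Fin 4)).deleteEdges {s(0, 1)} ↪g G)

theorem result (n : ℕ) (hn : 4 < n) (G : SimpleGraph (Fin n)) (hG : InClass G) :
    ∃ ν : ℕ, IsGreatest {k | ∃ M : G.Subgraph, M.IsMatching ∧ M.IsInduced ∧
        (∀ u v, M.Adj u v → ¬ ∃ w, G.Adj u w ∧ G.Adj v w) ∧ M.edgeSet.ncard = k} ν ∧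
      3 * (totalDomNum G + 2 * ν) = 2 * n := by
  have hne : Nonempty (Fin n) := ⟨⟨0, by omega⟩⟩
  obtain ⟨h1, h2, h3, h4⟩ := hG
  obtain ⟨T, _, _, X, rfl⟩ := exists_str h1 h2 h3 h4 (by simpa using hn)
  have hc := X.card_eq
  rw [Fintype.card_fin] at hc
  obtain ⟨k, P, hP, hk, -, hlow⟩ := X.key (X.connected_iff.mp h1)
  have up : ∀ Q, X.Mt Q → totalDomNum X.graph + Q.card ≤ 2 * Fintype.card T := fun Q hQ => by
    obtain ⟨D, hD, hD'⟩ := X.dom_of_mt hQ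
    have : totalDomNum X.graph ≤ D.card := Nat.sInf_le ⟨D, rfl, hD'⟩
    omega
  have low : Fintype.card T + 2 * k ≤ totalDomNum X.graph := by
    obtain ⟨D, -, hD'⟩ := X.dom_of_mt hP
    obtain ⟨S, hS, hS'⟩ := Nat.sInf_mem (s := {k | ∃ S : Finset (Fin n), S.card = k ∧
      ∀ v, ∃ u ∈ S, X.graph.Adj v u}) ⟨_, D, rfl, hD'⟩
    unfold totalDomNum
    rw [← hS]
    exact hlow S hS'
  obtain ⟨M, m1, m2, m3, m4⟩ := X.sub_of_mt hP
  have hP' := up P hP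
  refine ⟨M.edgeSet.ncard, ⟨⟨M, m1, m2, m3, rfl⟩, ?_⟩, by omega⟩
  rintro j ⟨M', a1, a2, a3, rfl⟩
  obtain ⟨Q, hQ, hQ'⟩ := X.mt_of_sub a1 a2 a3
  have := up Q hQ
  omega

end Pool.Agent.Results.MP_e52bc6_co.Formula
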